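import Pool.Agent.T9h86.PK.One
import Pool.Agent.N251.LF.Win
import Pool.Agent.N251.LF.Fields
import Pool.Agent.N760.SC.A
import Pool.Agent.Results.MP_56e040_nt.RelationsOneLargeArgument

/-!
# The weights for which the dimension of the relations with a large argument is not the expected one
-/

set_option autoImplicit false

namespace Pool.Agent.T9h86.ZD

open Pool.Agent.Results.MP_56e040_nt.RelationsOneLargeArgument
  (relationSpace weightSpace numIndices zagier AlmostAll dims rel_finite eq_of_sums)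
open Pool.Agent.T9h86.PK (Thin)
open Pool.Agent.N760.SC (log_count)

/-- a set of natural numbers with at most `K` elements in all `[N, 2 N]`, `N ≥ N₀`, is thin -/
theorem thin_of_scales {S : Set ℕ} {K N₀ : ℕ} (h : ∀ N : ℕ, N₀ ≤ N → {k : ℕ | (N ≤ k ∧ k ≤ 2 * N) ∧ k ∈ S}.ncard ≤ K) :
    Thin (fun k : ℕ => (k : ℝ)) 0 S := by
  intro ε hε
  refine ⟨(2 * N₀ + 1) + K * (2 / ε + 1), fun X hX => ?_⟩
  have hX0 : 0 ≤ X := by linarith
  have hXε : 1 ≤ X ^ ε := Real.one_le_rpow hX hε.le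
  obtain ⟨Y, hY⟩ : ∃ Y : ℕ, Y = ⌊X⌋₊ := ⟨_, rfl⟩
  have hY1 : 1 ≤ Y := by rw [hY]; exact Nat.le_floor (by exact_mod_cast hX)
  have hYX : (Y : ℝ) ≤ X := by rw [hY]; exact Nat.floor_le hX0
  obtain ⟨B, hB⟩ : ∃ B : ℕ → Set ℕ, B = fun a => {k : ℕ | (2 ^ a ≤ k ∧ k ≤ 2 * 2 ^ a) ∧ k ∈ S} := ⟨_, rfl⟩
  have hBfin : ∀ a, (B a).Finite := by
    intro a
    rw [hB]
    exact (Set.finite_Iic (2 * 2 ^ a)).subset fun k hk => hk.1.2
  obtain ⟨A, hA⟩ : ∃ A : Finset ℕ, A = (Finset.range (Nat.log 2 Y + 1)).filter (fun a => N₀ ≤ 2 ^ a) := ⟨_, rfl⟩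
  have hsub : {t : ℕ | t ∈ S ∧ (t : ℝ) ≤ X} ⊆ Set.Iio (2 * N₀ + 1) ∪ ⋃ a ∈ A, B a := by
    rintro t ⟨ht, htX⟩
    have htY : t ≤ Y := by rw [hY]; exact Nat.le_floor htX
    by_cases h1 : t < 2 * N₀ + 1
    · exact Or.inl h1
    · right
      have h2 : 2 ^ (Nat.log 2 t) ≤ t := Nat.pow_log_le_self 2 (by omega)
      have h3 : t < 2 ^ (Nat.log 2 t + 1) := Nat.lt_pow_succ_log_self (by norm_num) t
      rw [pow_succ] at h3
      rw [Set.mem_iUnion₂]
      refine ⟨Nat.log 2 t, ?_, ?_⟩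
      · rw [hA, Finset.mem_filter, Finset.mem_range]
        exact ⟨Nat.lt_succ_of_le (Nat.log_mono_right htY), by omega⟩
      · rw [hB]
        exact ⟨⟨h2, by omega⟩, ht⟩
  have hfin1 : (⋃ a ∈ A, B a).Finite := Set.Finite.biUnion (Finset.finite_toSet _) fun a _ => hBfin a
  have hfin : (Set.Iio (2 * N₀ + 1) ∪ ⋃ a ∈ A, B a).Finite := (Set.finite_Iio _).union hfin1
  refine ⟨hfin.subset hsub, ?_⟩
  have h1 := (Set.ncard_le_ncard hsub hfin).trans (Set.ncard_union_le _ _)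
  have h2 : (Set.Iio (2 * N₀ + 1)).ncard = 2 * N₀ + 1 := by
    rw [← Finset.coe_Iio, Set.ncard_coe_finset, Nat.card_Iio]
  have h3 : (⋃ a ∈ A, B a).ncard ≤ (Nat.log 2 Y + 1) * K := by
    refine (Finset.set_ncard_biUnion_le A B).trans ?_
    calc ∑ a ∈ A, (B a).ncard ≤ ∑ _a ∈ A, K := by
          refine Finset.sum_le_sum fun a ha => ?_
          rw [hA, Finset.mem_filter] at ha
          rw [hB]
          exact h (2 ^ a) ha.2
      _ = A.card * K := by rw [Finset.sum_const, smul_eq_mul]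
      _ ≤ (Nat.log 2 Y + 1) * K := by
          refine Nat.mul_le_mul_right K ?_
          rw [hA]
          refine (Finset.card_filter_le _ _).trans ?_
          rw [Finset.card_range]
  rw [h2] at h1
  have h4 : ({t : ℕ | t ∈ S ∧ (t : ℝ) ≤ X}.ncard : ℝ) ≤ (2 * N₀ + 1) + (((Nat.log 2 Y : ℕ) : ℝ) + 1) * K := by
    exact_mod_cast h1.trans (Nat.add_le_add_left h3 _)
  rw [zero_add]
  calc ({t : ℕ | t ∈ S ∧ (t : ℝ) ≤ X}.ncard : ℝ) ≤ (2 * N₀ + 1) + (((Nat.log 2 Y : ℕ) : ℝ) + 1) * K := h4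
    _ ≤ (2 * N₀ + 1) * X ^ ε + ((2 / ε + 1) * X ^ ε) * K := by
        refine add_le_add ?_ ?_
        · exact le_mul_of_one_le_right (by positivity) hXε
        · refine mul_le_mul_of_nonneg_right ((log_count ε hε Y hY1).trans ?_) (Nat.cast_nonneg _)
          exact mul_le_mul_of_nonneg_left (Real.rpow_le_rpow (Nat.cast_nonneg _) hYX hε.le) (by positivity)
    _ = ((2 * N₀ + 1) + K * (2 / ε + 1)) * X ^ ε := by ring

/-- The relations of height at most `C ^ k` between the multiple zeta values of weight `k` with an argument at least `k - W` span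
a space of dimension `∑_{n ≤ W} 2 ^ (W - n) (a_n - dim Z_n)`. -/
def ExactDim (W : ℕ) (C : ℝ) (k : ℕ) : Prop :=
  Module.finrank ℚ (relationSpace W k (C ^ k)) +
    ∑ n ∈ Finset.range (W + 1), 2 ^ (W - n) * Module.finrank ℚ (weightSpace n) =
      ∑ n ∈ Finset.range (W + 1), 2 ^ (W - n) * numIndices n

/-- the sets of the bad weights, for all `W` and all rational `C > 1` -/
def badSets : Set (Set ℕ) := {S | ∃ (W : ℕ) (C : ℚ), 1 < C ∧ S = {k | ¬ ExactDim W C k}}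

theorem badSets_countable : badSets.Countable := by
  have h : badSets ⊆ Set.range (fun x : ℕ × ℚ => {k | ¬ ExactDim x.1 x.2 k}) := by
    rintro S ⟨W, C, -, rfl⟩
    exact ⟨(W, C), rfl⟩
  exact (Set.countable_range _).mono h

theorem badSets_thin : ∀ S ∈ badSets, Thin (fun k : ℕ => (k : ℝ)) 0 S := by
  rintro S ⟨W, C, hC, rfl⟩
  obtain ⟨K, hK⟩ := dims W 2
  obtain ⟨N₀, hN₀⟩ := hK C (by exact_mod_cast hC)
  exact thin_of_scales (K := K) (N₀ := N₀) fun N hN => hN₀ N hN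

/-- the relation spaces are monotone -/
theorem rel_mono (W k : ℕ) {B B' : ℝ} (h : B ≤ B') : relationSpace W k B ≤ relationSpace W k B' := by
  refine Submodule.span_mono ?_
  rintro c ⟨h1, h2, h3⟩
  refine ⟨h1, fun w => ?_, h3⟩
  obtain ⟨z, h4, h5⟩ := h2 w
  exact ⟨z, h4, h5.trans h⟩

theorem interp {W k : ℕ} {C C₁ C₂ : ℝ} (h1 : 1 < C₁) (h2 : C₁ ≤ C) (h3 : C ≤ C₂) (hC₁ : ExactDim W C₁ k)
    (hC₂ : ExactDim W C₂ k) : ExactDim W C k := by
  have i1 := rel_finite W k (C ^ k)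
  have i2 := rel_finite W k (C₂ ^ k)
  have h4 : Module.finrank ℚ (relationSpace W k (C₁ ^ k)) ≤ Module.finrank ℚ (relationSpace W k (C ^ k)) :=
    Submodule.finrank_mono (rel_mono W k (pow_le_pow_left₀ (by linarith) h2 k))
  have h5 : Module.finrank ℚ (relationSpace W k (C ^ k)) ≤ Module.finrank ℚ (relationSpace W k (C₂ ^ k)) :=
    Submodule.finrank_mono (rel_mono W k (pow_le_pow_left₀ (by linarith) h3 k))
  unfold ExactDim at hC₁ hC₂ ⊢
  omega

/-- rational numbers around a real number `C > 1` -/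
theorem around {C : ℝ} (hC : 1 < C) : ∃ C₁ C₂ : ℚ, 1 < C₁ ∧ 1 < C₂ ∧ (C₁ : ℝ) ≤ C ∧ C ≤ (C₂ : ℝ) := by
  obtain ⟨C₁, h1, h2⟩ := exists_rat_btwn hC
  obtain ⟨C₂, h3, -⟩ := exists_rat_btwn (lt_add_one C)
  refine ⟨C₁, C₂, by exact_mod_cast h1, ?_, h2.le, h3.le⟩
  have : (1 : ℝ) < C₂ := hC.trans h3
  exact_mod_cast this

end Pool.Agent.T9h86.ZD
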